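import Pool.Agent.HMG.Main

set_option autoImplicit false

namespace Pool.Agent.Results.MP_fd686d_al.BoundedExponent

open Pool.Agent.HMG

/-- Let `G` be a Hausdorff topological group which is torsion-free, whose centre is open and
topologically isomorphic to `ℤ_p`, and whose central quotient has bounded exponent.  Then `G` is
hereditarily minimal, and `G` is hereditarily totally minimal if and only if the discrete group
`G / Z(G)` is. -/
theorem result (p : ℕ) [Fact p.Prime] (G : Type) [Group G] [TopologicalSpace G]
    [IsTopologicalGroup G] [T2Space G]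
    (torsionFree : ∀ (g : G) (m : ℕ), 0 < m → g ^ m = 1 → g = 1)
    (isOpen_center : IsOpen (Subgroup.center G : Set G))
    (centerIso : Nonempty (Subgroup.center G ≃ₜ* Multiplicative ℤ_[p]))
    (n : ℕ) (hn : 0 < n) (exponent : ∀ g : G, g ^ n ∈ Subgroup.center G) :
    IsHM G ∧ (IsHTM G ↔ IsHTM (G ⧸ Subgroup.center G)) := by
  obtain ⟨e⟩ := centerIso
  exact ⟨isHM_of_exponent torsionFree isOpen_center e n hn exponent,
    fun h => htm_quotient _ h, htm_of_quotient torsionFree isOpen_center e n hn exponent⟩

end Pool.Agent.Results.MP_fd686d_al.BoundedExponent
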