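import Pool.Agent.HMG.Construct

set_option autoImplicit false

namespace Pool.Agent.Results.MP_fd686d_al.FromCyclicCentre

open Pool.Agent.HMG

/-- Let `A` be a torsion-free (abstract) group whose centre is infinite cyclic and whose central
quotient has exponent dividing `p ^ k`.  Then there is a non-discrete locally compact Hausdorff
group `G` with non-trivial centre which is hereditarily minimal, and which is hereditarily totally
minimal if and only if the discrete group `A / Z(A)` is. -/
theorem result (p : ℕ) [Fact p.Prime] (A : Type) [Group A]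
    (torsionFree : ∀ (a : A) (m : ℕ), 0 < m → a ^ m = 1 → a = 1)
    (c : A) (hc : c ≠ 1) (center_eq : Subgroup.center A = Subgroup.zpowers c)
    (k : ℕ) (exponent : ∀ a : A, a ^ (p ^ k) ∈ Subgroup.center A) :
    ∃ (G : Type) (_ : Group G) (_ : TopologicalSpace G) (_ : IsTopologicalGroup G),
      T2Space G ∧ LocallyCompactSpace G ∧ ¬ DiscreteTopology G ∧ Subgroup.center G ≠ ⊥ ∧
      IsHM G ∧ (IsHTM G ↔ @IsHTM (A ⧸ Subgroup.center A) _ ⊥) :=
  construct p A torsionFree c hc center_eq k exponent

end Pool.Agent.Results.MP_fd686d_al.FromCyclicCentre
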